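import Mathlib

/-!
The strong geodetic number of a Cartesian product can be smaller than that of a factor.
-/

namespace Pool.Agent.Results.MP_8400ad_co.StrongGeodeticProduct

open SimpleGraph

variable {V : Type*}

/-- `A` is the vertex set of a shortest path between `x` and `y`. -/
def IsGeodesicSet (G : SimpleGraph V) (x y : V) (A : Set V) : Prop :=
  ∃ p : G.Walk x y, p.length = G.dist x y ∧ A = {v | v ∈ p.support}

/-- `S` is a strong geodetic set: for every unordered pair of distinct vertices of `S` one chooses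
(the vertex set of) one geodesic, such that every vertex is covered. -/
def IsStrongGeodetic (G : SimpleGraph V) (S : Finset V) : Prop :=
  ∃ P : Sym2 V → Set V, (∀ x ∈ S, ∀ y ∈ S, x ≠ y → IsGeodesicSet G x y (P s(x, y))) ∧
    ∀ v : V, ∃ x ∈ S, ∃ y ∈ S, x ≠ y ∧ v ∈ P s(x, y)

/-- The strong geodetic number. -/
noncomputable def sg (G : SimpleGraph V) : ℕ :=
  sInf {n : ℕ | ∃ S : Finset V, S.card = n ∧ IsStrongGeodetic G S}

theorem IsGeodesicSet.symm {G : SimpleGraph V} {x y : V} {A : Set V} (h : IsGeodesicSet G x y A) :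
    IsGeodesicSet G y x A := by
  obtain ⟨p, h1, h2⟩ := h
  refine ⟨p.reverse, by rw [Walk.length_reverse, h1, SimpleGraph.dist_comm], ?_⟩
  rw [h2]
  ext v
  simp

/-- Every pair has a geodesic. -/
theorem exists_choice {G : SimpleGraph V} (hc : G.Connected) (e : Sym2 V) :
    ∃ A : Set V, ∀ x y, e = s(x, y) → IsGeodesicSet G x y A := by
  induction e using Sym2.ind with
  | _ a b =>
    obtain ⟨p, hp⟩ := hc.exists_walk_length_eq_dist a b
    refine ⟨{v | v ∈ p.support}, fun x y h => ?_⟩
    rw [Sym2.eq_iff] at h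
    rcases h with ⟨rfl, rfl⟩ | ⟨rfl, rfl⟩
    · exact ⟨p, hp, rfl⟩
    · exact IsGeodesicSet.symm ⟨p, hp, rfl⟩

theorem univ_strong [Fintype V] [Nontrivial V] {G : SimpleGraph V} (hc : G.Connected) :
    IsStrongGeodetic G Finset.univ := by
  choose P hP using fun e => exists_choice (G := G) hc e
  refine ⟨P, fun x _ y _ _ => hP _ x y rfl, fun v => ?_⟩
  obtain ⟨w, hw⟩ := exists_ne v
  refine ⟨v, Finset.mem_univ _, w, Finset.mem_univ _, hw.symm, ?_⟩
  obtain ⟨p, _, h2⟩ := hP s(v, w) v w rfl
  rw [h2]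
  exact p.start_mem_support

/-- The first factor, `K_{2,11}`. -/
def K : SimpleGraph (Fin 2 ⊕ Fin 11) := completeBipartiteGraph (Fin 2) (Fin 11)

theorem K_adj (a : Fin 2) (i : Fin 11) : K.Adj (Sum.inl a) (Sum.inr i) := by
  simp [K]

theorem K_connected : K.Connected := by
  have key : ∀ x : Fin 2 ⊕ Fin 11, K.Reachable x (Sum.inl 0) := by
    intro x
    rcases x with a | i
    · exact (K_adj a 0).reachable.trans (K_adj 0 0).reachable.symm
    · exact (K_adj 0 i).reachable.symm
  have : Nonempty (Fin 2 ⊕ Fin 11) := ⟨Sum.inl 0⟩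
  exact ⟨fun u w => (key u).trans (key w).symm⟩

theorem K_dist_le (x y : Fin 2 ⊕ Fin 11) : K.dist x y ≤ 2 := by
  rcases x with a | i <;> rcases y with b | j
  · exact SimpleGraph.dist_le (Walk.cons (K_adj a 0) (Walk.cons (K_adj b 0).symm Walk.nil))
  · exact (SimpleGraph.dist_le (Walk.cons (K_adj a j) Walk.nil)).trans (by simp)
  · exact (SimpleGraph.dist_le (Walk.cons (K_adj b i).symm Walk.nil)).trans (by simp)
  · exact SimpleGraph.dist_le (Walk.cons (K_adj 0 i).symm (Walk.cons (K_adj 0 j) Walk.nil))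

/-- A geodesic of `K` through the inner vertex `c_i` joins the two vertices of degree 11. -/
theorem inner (x y : Fin 2 ⊕ Fin 11) (p : K.Walk x y) (hp : p.length = K.dist x y) (i : Fin 11)
    (hi : Sum.inr i ∈ p.support) (hx : x ≠ Sum.inr i) (hy : y ≠ Sum.inr i) :
    (∃ a b : Fin 2, x = Sum.inl a ∧ y = Sum.inl b) ∧ ∀ j : Fin 11, Sum.inr j ∈ p.support → j = i := by
  have hlen := K_dist_le x y
  rw [← hp] at hlen
  cases p with
  | nil => simp at hi; exact absurd hi.symm hx
  | cons h1 p1 =>
    cases p1 with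
    | nil =>
      simp only [Walk.support_cons, Walk.support_nil, List.mem_cons, List.not_mem_nil,
        or_false] at hi
      rcases hi with h | h
      · exact absurd h.symm hx
      · exact absurd h.symm hy
    | cons h2 p2 =>
      cases p2 with
      | nil =>
        rename_i z
        simp only [Walk.support_cons, Walk.support_nil, List.mem_cons, List.not_mem_nil,
          or_false] at hi ⊢
        have hz : z = Sum.inr i := by
          rcases hi with h | h | h
          · exact absurd h.symm hx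
          · exact h.symm
          · exact absurd h.symm hy
        subst hz
        rcases x with a | x
        · rcases y with b | y
          · refine ⟨⟨a, b, rfl, rfl⟩, ?_⟩
            intro j hj
            rcases hj with h | h | h
            · cases h
            · exact Sum.inr.inj h
            · cases h
          · simp [K] at h2
        · simp [K] at h1
      | cons h3 p3 =>
        simp only [Walk.length_cons] at hlen
        omega

theorem sg_K : 11 ≤ sg K := by
  classical
  unfold sg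
  have : Nontrivial (Fin 2 ⊕ Fin 11) := ⟨Sum.inl 0, Sum.inr 0, by simp⟩
  have hne : {n : ℕ | ∃ S : Finset (Fin 2 ⊕ Fin 11), S.card = n ∧ IsStrongGeodetic K S}.Nonempty :=
    ⟨_, Finset.univ, rfl, univ_strong K_connected⟩
  obtain ⟨S, hS, P, hP, hcov⟩ := Nat.sInf_mem hne
  rw [← hS]
  set C : Finset (Fin 2 ⊕ Fin 11) := Finset.univ.image Sum.inr with hC
  have hCcard : C.card = 11 := by
    rw [hC, Finset.card_image_of_injective _ Sum.inr_injective]
    simp
  by_cases hall : C ⊆ S
  · have := Finset.card_le_card hall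
    omega
  · -- some `c_i` is missing
    obtain ⟨c, hcC, hcS⟩ := Finset.not_subset.mp hall
    obtain ⟨i, _, rfl⟩ := Finset.mem_image.mp hcC
    obtain ⟨x, hx, y, hy, hxy, hmem⟩ := hcov (Sum.inr i)
    obtain ⟨p, hp1, hp2⟩ := hP x hx y hy hxy
    rw [hp2] at hmem
    have hxi : x ≠ Sum.inr i := fun h => hcS (h ▸ hx)
    have hyi : y ≠ Sum.inr i := fun h => hcS (h ▸ hy)
    obtain ⟨⟨a, b, rfl, rfl⟩, huniq⟩ := inner x y p hp1 i hmem hxi hyi
    have hab : a ≠ b := fun h => hxy (by rw [h])
    -- all other `c_j` belong to `S`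
    have hothers : ∀ j, j ≠ i → Sum.inr j ∈ S := by
      intro j hj
      by_contra hjS
      obtain ⟨x', hx', y', hy', hxy', hmem'⟩ := hcov (Sum.inr j)
      obtain ⟨p', hp1', hp2'⟩ := hP x' hx' y' hy' hxy'
      have hmem'' := hmem'
      rw [hp2'] at hmem''
      obtain ⟨⟨a', b', rfl, rfl⟩, huniq'⟩ := inner x' y' p' hp1' j hmem''
        (fun h => hjS (h ▸ hx')) (fun h => hjS (h ▸ hy'))
      have hab' : a' ≠ b' := fun h => hxy' (by rw [h])
      have he : s((Sum.inl a' : Fin 2 ⊕ Fin 11), Sum.inl b') = s(Sum.inl a, Sum.inl b) := by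
        rw [Sym2.eq_iff]
        have : (a' = a ∧ b' = b) ∨ (a' = b ∧ b' = a) := by omega
        rcases this with ⟨h1, h2⟩ | ⟨h1, h2⟩
        · left; rw [h1, h2]; exact ⟨rfl, rfl⟩
        · right; rw [h1, h2]; exact ⟨rfl, rfl⟩
      rw [he, hp2] at hmem'
      exact hj (huniq j hmem')
    have hsub : (insert (Sum.inl a) (insert (Sum.inl b) (C.erase (Sum.inr i)))) ⊆ S := by
      intro z hz
      rcases Finset.mem_insert.mp hz with rfl | hz
      · exact hx
      rcases Finset.mem_insert.mp hz with rfl | hz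
      · exact hy
      rw [Finset.mem_erase, hC, Finset.mem_image] at hz
      obtain ⟨h1, j, _, rfl⟩ := hz
      exact hothers j (fun h => h1 (by rw [h]))
    have h1 := Finset.card_le_card hsub
    rw [Finset.card_insert_of_notMem, Finset.card_insert_of_notMem,
      Finset.card_erase_of_mem hcC, hCcard] at h1
    · omega
    · simp [hC]
    · simp [hC, hab]

/-- The second factor, the 5-cycle. -/
def C5 : SimpleGraph (Fin 5) := cycleGraph 5

theorem C5_adj (h : Fin 5) : C5.Adj h (h + 1) := by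
  revert h
  unfold C5
  decide

theorem C5_adj' (h : Fin 5) : C5.Adj (h + 1) h := (C5_adj h).symm

theorem C5_connected : C5.Connected := cycleGraph_connected

/-- The geodesics of the 5-cycle. -/
theorem C5_geo (h k : Fin 5) : ∃ q : C5.Walk h k, q.length = C5.dist h k ∧
    (k = h + 2 → h + 1 ∈ q.support) ∧ (k = h + 3 → h + 4 ∈ q.support) := by
  by_cases h0 : k = h
  · subst h0
    refine ⟨Walk.nil, by simp, ?_, ?_⟩
    · intro h; omega
    · intro h; omega
  by_cases h1 : k = h + 1
  · subst h1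
    refine ⟨Walk.cons (C5_adj h) Walk.nil, ?_, ?_, ?_⟩
    · rw [SimpleGraph.dist_eq_one_iff_adj.mpr (C5_adj h)]; simp
    · intro h; omega
    · intro h; omega
  by_cases h4 : h = k + 1
  · subst h4
    refine ⟨Walk.cons (C5_adj' k) Walk.nil, ?_, ?_, ?_⟩
    · rw [SimpleGraph.dist_eq_one_iff_adj.mpr (C5_adj' k)]; simp
    · intro h; omega
    · intro h; omega
  have hnadj : ¬ C5.Adj h k := by
    revert h0 h1 h4
    revert h k
    unfold C5
    decide
  have hdist : 2 ≤ C5.dist h k := by
    have := C5_connected.one_lt_dist_of_ne_of_not_adj (Ne.symm h0) hnadj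
    omega
  by_cases h2 : k = h + 2
  · subst h2
    have e : h + 1 + 1 = h + 2 := by omega
    have a2 : C5.Adj (h + 1) (h + 2) := e ▸ C5_adj (h + 1)
    refine ⟨Walk.cons (C5_adj h) (Walk.cons a2 Walk.nil), ?_, ?_, ?_⟩
    · apply le_antisymm
      · simpa using hdist
      · exact SimpleGraph.dist_le _
    · intro _; simp
    · intro h; omega
  · have h3 : k = h + 3 := by omega
    subst h3
    have e1 : h + 4 + 1 = h := by omega
    have e2 : h + 3 + 1 = h + 4 := by omega
    have a1 : C5.Adj h (h + 4) := by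
      have := C5_adj' (h + 4)
      rwa [e1] at this
    have a2 : C5.Adj (h + 4) (h + 3) := by
      have := C5_adj' (h + 3)
      rwa [e2] at this
    refine ⟨Walk.cons a1 (Walk.cons a2 Walk.nil), ?_, ?_, ?_⟩
    · apply le_antisymm
      · simpa using hdist
      · exact SimpleGraph.dist_le _
    · intro h; omega
    · intro _; simp

/-- The slab used by the pair `(a, h), (b, k)`. -/
def slab (h k : Fin 5) : Fin 11 :=
  if k = h then 10
  else if k = h + 1 then ⟨h.1, by omega⟩
  else if k = h + 2 then ⟨(h + 3 : Fin 5).1, by omega⟩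
  else if k = h + 4 then ⟨5 + k.1, by omega⟩
  else ⟨5 + (h + 1 : Fin 5).1, by omega⟩

theorem K_adj' (b : Fin 2) (i : Fin 11) : K.Adj (Sum.inr i) (Sum.inl b) := (K_adj b i).symm

/-- A geodesic of the product through a prescribed slab. -/
theorem prod_geo (h k : Fin 5) (q : C5.Walk h k) (hq : q.length = C5.dist h k) (i : Fin 11) :
    ∃ A : Set ((Fin 2 ⊕ Fin 11) × Fin 5),
      IsGeodesicSet (K □ C5) (Sum.inl 0, h) (Sum.inl 1, k) A ∧
      (Sum.inl 0, h) ∈ A ∧ (Sum.inl 1, k) ∈ A ∧ ∀ z ∈ q.support, (Sum.inr i, z) ∈ A := by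
  have a1 : (K □ C5).Adj (Sum.inl 0, h) (Sum.inr i, h) := by
    rw [boxProd_adj_left]; exact K_adj 0 i
  have a2 : (K □ C5).Adj (Sum.inr i, k) (Sum.inl 1, k) := by
    rw [boxProd_adj_left]; exact K_adj' 1 i
  -- the walk in the slab
  obtain ⟨r, hr1, hr2⟩ : ∃ r : (K □ C5).Walk (Sum.inr i, h) (Sum.inr i, k),
      r.length = q.length ∧ ∀ z ∈ q.support, (Sum.inr i, z) ∈ r.support := by
    clear hq a1 a2
    induction q with
    | nil => exact ⟨Walk.nil, rfl, by simp⟩
    | cons hadj q ih =>
      obtain ⟨r, hr1, hr2⟩ := ih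
      rename_i u v w
      have a3 : (K □ C5).Adj (Sum.inr i, u) (Sum.inr i, v) := by
        rw [boxProd_adj_right]; exact hadj
      refine ⟨Walk.cons a3 r, by simp [hr1], ?_⟩
      intro z hz
      rw [Walk.support_cons, List.mem_cons] at hz ⊢
      rcases hz with rfl | hz
      · exact Or.inl rfl
      · exact Or.inr (hr2 z hz)
  have hK : K.dist (Sum.inl 0) (Sum.inl 1) = 2 := by
    apply le_antisymm (K_dist_le _ _)
    exact K_connected.one_lt_dist_of_ne_of_not_adj (by simp) (by simp [K])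
  have hcc : (K □ C5).Connected := K_connected.boxProd C5_connected
  have hdist : (K □ C5).dist (Sum.inl 0, h) (Sum.inl 1, k) = 2 + C5.dist h k := by
    have h1 := edist_boxProd (G := K) (H := C5) ((Sum.inl 0 : Fin 2 ⊕ Fin 11), h) (Sum.inl 1, k)
    rw [← (hcc.preconnected _ _).coe_dist_eq_edist, ← (K_connected.preconnected _ _).coe_dist_eq_edist,
      ← (C5_connected.preconnected _ _).coe_dist_eq_edist] at h1
    simp only at h1
    rw [hK] at h1
    exact_mod_cast h1
  refine ⟨_, ⟨Walk.cons a1 (r.concat a2), ?_, rfl⟩, ?_, ?_, ?_⟩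
  · rw [hdist, Walk.length_cons, Walk.length_concat, hr1, hq]
    ring
  · simp
  · simp only [Set.mem_ofPred_eq]
    exact Walk.end_mem_support _
  · intro z hz
    simp only [Set.mem_ofPred_eq]
    rw [Walk.support_cons, Walk.support_concat, List.mem_cons]
    right
    simp [hr2 z hz]

theorem cover_slab (i : Fin 11) (z : Fin 5) : ∃ h k : Fin 5, slab h k = i ∧
    (z = h ∨ z = k ∨ (k = h + 2 ∧ z = h + 1) ∨ (k = h + 3 ∧ z = h + 4)) := by
  revert i z
  decide

/-- The ten vertices over the two vertices of degree 11. -/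
def S : Finset ((Fin 2 ⊕ Fin 11) × Fin 5) :=
  (Finset.univ : Finset (Fin 2 × Fin 5)).image (fun u => (Sum.inl u.1, u.2))

theorem mem_S (a : Fin 2) (h : Fin 5) : ((Sum.inl a : Fin 2 ⊕ Fin 11), h) ∈ S :=
  Finset.mem_image.mpr ⟨(a, h), Finset.mem_univ _, rfl⟩

theorem S_strong : IsStrongGeodetic (K □ C5) S := by
  have hcc : (K □ C5).Connected := K_connected.boxProd C5_connected
  choose q hq1 hq2 hq3 using C5_geo
  choose A hA1 hA2 hA3 hA4 using fun h k => prod_geo h k (q h k) (hq1 h k) (slab h k)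
  have hex : ∀ e : Sym2 ((Fin 2 ⊕ Fin 11) × Fin 5), ∃ B : Set ((Fin 2 ⊕ Fin 11) × Fin 5),
      (∀ x y, e = s(x, y) → IsGeodesicSet (K □ C5) x y B) ∧
      (∀ h k, e = s((Sum.inl 0, h), (Sum.inl 1, k)) → B = A h k) := by
    intro e
    by_cases he : ∃ h k, e = s(((Sum.inl 0 : Fin 2 ⊕ Fin 11), h), (Sum.inl 1, k))
    · obtain ⟨h, k, rfl⟩ := he
      refine ⟨A h k, ?_, ?_⟩
      · intro x y hxy
        rw [Sym2.eq_iff] at hxy
        rcases hxy with ⟨rfl, rfl⟩ | ⟨rfl, rfl⟩
        · exact hA1 h k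
        · exact (hA1 h k).symm
      · intro h' k' heq
        rw [Sym2.eq_iff] at heq
        rcases heq with ⟨h1, h2⟩ | ⟨h1, h2⟩
        · simp only [Prod.mk.injEq, true_and] at h1 h2
          rw [h1, h2]
        · simp at h1
    · obtain ⟨B, hB⟩ := exists_choice hcc e
      refine ⟨B, hB, fun h k heq => absurd ⟨h, k, heq⟩ he⟩
  choose P hP1 hP2 using hex
  refine ⟨P, fun x _ y _ _ => hP1 _ x y rfl, ?_⟩
  rintro ⟨v, z⟩
  have hne : ∀ h k : Fin 5, ((Sum.inl 0 : Fin 2 ⊕ Fin 11), h) ≠ (Sum.inl 1, k) := by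
    intro h k hh
    simp at hh
  rcases v with a | i
  · refine ⟨(Sum.inl 0, z), mem_S _ _, (Sum.inl 1, z), mem_S _ _, hne z z, ?_⟩
    rw [hP2 _ z z rfl]
    have : a = 0 ∨ a = 1 := by omega
    rcases this with rfl | rfl
    · exact hA2 z z
    · exact hA3 z z
  · obtain ⟨h, k, hs, hz⟩ := cover_slab i z
    refine ⟨(Sum.inl 0, h), mem_S _ _, (Sum.inl 1, k), mem_S _ _, hne h k, ?_⟩
    rw [hP2 _ h k rfl, ← hs]
    apply hA4
    rcases hz with rfl | rfl | ⟨h1, rfl⟩ | ⟨h1, rfl⟩
    · exact Walk.start_mem_support _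
    · exact Walk.end_mem_support _
    · exact hq2 h k h1
    · exact hq3 h k h1

theorem sg_prod : sg (K □ C5) ≤ 10 := by
  have h : sg (K □ C5) ≤ S.card := Nat.sInf_le ⟨S, rfl, S_strong⟩
  have h2 : S.card ≤ 10 := Finset.card_image_le.trans (by simp)
  exact h.trans h2

/-- The strong geodetic number of a Cartesian product of connected graphs can be smaller than
that of a factor. -/
theorem result : ∃ (G : SimpleGraph (Fin 2 ⊕ Fin 11)) (H : SimpleGraph (Fin 5)),
    G.Connected ∧ H.Connected ∧ sg (G □ H) < sg G :=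
  ⟨K, C5, K_connected, C5_connected, by
    have h1 := sg_prod
    have h2 := sg_K
    omega⟩

end Pool.Agent.Results.MP_8400ad_co.StrongGeodeticProduct
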